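import Pool.Agent.MTN.Stmts
import Pool.Agent.Helper2_MTD.Gfm
import Pool.Agent.Helper43_MT100G.Bas

/-!
# MTN, module GME: the lower bound for all the entries of a fundamental matrix
-/

set_option autoImplicit false

namespace Pool.Agent.MTN.H1

open Matrix Polynomial Pool.Agent.MT100 Pool.Agent.MT100G Pool.Agent.MT100A Pool.Agent.MT100D
  Pool.Agent.Helper78_MT Pool.Agent.MT100G.H43 Pool.Agent.MT100D.H2
open scoped Kronecker

variable {d : Type} [Fintype d] [DecidableEq d]

theorem evC_C_mul (c : ℚ) {f : PowerSeries ℚ} {x : ℂ} (h : AC f x) :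
    AC (PowerSeries.C c * f) x ∧ evC (PowerSeries.C c * f) x = (c : ℂ) * evC f x := by
  have h1 := ac_poly (C c : ℚ[X]) x
  rw [Polynomial.coe_C, Polynomial.map_C, Polynomial.eval_C] at h1
  have h2 := ac_mul h1.1 h
  refine ⟨h2.1, ?_⟩
  rw [h2.2, h1.2]
  rfl

/-- the hypothesis GFE for fixed `m`, `A`, `η` -/
def GF (m A : ℕ) (η : ℝ) : Prop :=
  ∀ (d : Type) [Fintype d] [DecidableEq d]
    (H K : Matrix d d (PowerSeries ℚ)) (N : Matrix d d ℤ) (δ : d → ℚ) (q : ℤ[X])
    (B : Matrix d d ℤ[X]), GSysD H K N δ q B → ∀ u : d → ℤ,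
    AA N δ *ᵥ (fun i => (u i : ℚ)) = 0 →
    ∃ R0 : ℝ, ∀ w ∈ Pts m A, R0 ≤ ‖w‖ → Lb η (hv H fun j => (u j : ℚ)) w

/-- the case `H(0) = 1` -/
theorem gme1 {m A : ℕ} {η : ℝ} (hG : GF m A η) {H K : Matrix d d (PowerSeries ℚ)}
    {N : Matrix d d ℤ} {δ : d → ℚ} {q : ℤ[X]} {B : Matrix d d ℤ[X]} (hS : GSysD H K N δ q B) :
    ∃ R0 : ℝ, ∀ w ∈ Pts m A, R0 ≤ ‖w‖ → Lb η (fun x : d × d => H x.1 x.2) w := by
  obtain ⟨q', B', hK⟩ := gsysd_kron hS
  set u : d × d → ℤ := fun x => if x.1 = x.2 then 1 else 0 with hu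
  have hNu : AA (N ⊗ₖ (1 : Matrix d d ℤ) - (1 : Matrix d d ℤ) ⊗ₖ Nᵀ)
      (fun x : d × d => δ x.1 - δ x.2) *ᵥ (fun i => (u i : ℚ)) = 0 := by
    rw [AA_kron]
    ext ⟨i, j⟩
    rw [Matrix.mulVec, dotProduct, Fintype.sum_prod_type]
    simp only [Matrix.sub_apply, Matrix.kronecker_apply, Matrix.transpose_apply, hu,
      Matrix.one_apply]
    simp only [Int.cast_ite, Int.cast_one, Int.cast_zero, mul_ite, mul_one, mul_zero,
      Finset.sum_ite_eq, Finset.mem_univ, if_true, Pi.zero_apply]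
    simp only [ite_mul, one_mul, zero_mul]
    rw [Finset.sum_sub_distrib]
    simp
  obtain ⟨R0, h0⟩ := hG (d × d) _ _ _ _ _ _ hK u hNu
  have hhv : hv (H ⊗ₖ (1 : Matrix d d (PowerSeries ℚ))) (fun j => (u j : ℚ)) =
      fun x : d × d => H x.1 x.2 := by
    funext x
    obtain ⟨i, j⟩ := x
    unfold hv
    rw [Fintype.sum_prod_type]
    simp only [Matrix.kronecker_apply, hu, Matrix.one_apply]
    rw [Finset.sum_eq_single j, Finset.sum_eq_single j]
    · simp
    · intro l _ hl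
      rw [if_neg (Ne.symm hl)]
      simp
    · intro h
      exact absurd (Finset.mem_univ _) h
    · intro k _ hk
      refine Finset.sum_eq_zero fun l _ => ?_
      by_cases h1 : k = l
      · subst h1
        rw [if_neg (Ne.symm hk)]
        simp
      · rw [if_neg h1]
        simp
    · intro h
      exact absurd (Finset.mem_univ _) h
  refine ⟨R0, fun w hw hR => ?_⟩
  have h1 := h0 w hw hR
  rw [hhv] at h1
  exact h1

/-- multiplication of the columns of a matrix of coefficients by a rational matrix -/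
noncomputable def tr (K : Type*) [Field K] [Algebra ℚ K] (M : Matrix d d ℚ) :
    (d × d → K) →ₗ[K] (d × d → K) where
  toFun := fun a x => ∑ i, algebraMap ℚ K (M i x.1) * a (i, x.2)
  map_add' := by
    intro a b
    funext x
    simp only [Pi.add_apply, mul_add, Finset.sum_add_distrib]
  map_smul' := by
    intro c a
    funext x
    simp only [Pi.smul_apply, smul_eq_mul, RingHom.id_apply, Finset.mul_sum]
    exact Finset.sum_congr rfl fun i _ => by ring

omit [DecidableEq d] in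
theorem tr_apply (K : Type*) [Field K] [Algebra ℚ K] (M : Matrix d d ℚ) (a : d × d → K)
    (x : d × d) : tr K M a x = ∑ i, algebraMap ℚ K (M i x.1) * a (i, x.2) := rfl

theorem tr_tr (K : Type*) [Field K] [Algebra ℚ K] {M M' : Matrix d d ℚ} (h : M * M' = 1)
    (a : d × d → K) : tr K M' (tr K M a) = a := by
  funext x
  obtain ⟨i, j⟩ := x
  simp only [tr_apply, Finset.mul_sum]
  rw [Finset.sum_comm]
  have h1 : ∀ y, ∑ k, algebraMap ℚ K (M' k i) * (algebraMap ℚ K (M y k) * a (y, j)) =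
      algebraMap ℚ K ((M * M') y i) * a (y, j) := by
    intro y
    rw [Matrix.mul_apply, map_sum, Finset.sum_mul]
    refine Finset.sum_congr rfl fun k _ => ?_
    rw [map_mul]
    ring
  simp only [h1, h, Matrix.one_apply]
  rw [Finset.sum_eq_single i]
  · rw [if_pos rfl, map_one, one_mul]
  · intro b _ hb
    rw [if_neg hb, map_zero, zero_mul]
  · intro h
    exact absurd (Finset.mem_univ _) h

/-- the equivalence -/
noncomputable def trE (K : Type*) [Field K] [Algebra ℚ K] {M M' : Matrix d d ℚ}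
    (h : M * M' = 1) (h' : M' * M = 1) : (d × d → K) ≃ₗ[K] (d × d → K) :=
  LinearEquiv.ofLinear (tr K M) (tr K M')
    (LinearMap.ext fun a => tr_tr K h' a) (LinearMap.ext fun a => tr_tr K h a)

/-- GME -/
theorem gme (hG : GfeStmt) : GmeStmt := by
  intro m A
  obtain ⟨η, hη, hG⟩ := hG m A
  refine ⟨η, hη, ?_⟩
  intro d _ _ H hH
  obtain ⟨K, N, δ, q, B, hS⟩ := hH
  obtain ⟨H0, K0, q', B', e1, e2, hD⟩ := gauge hS
  obtain ⟨R0, h0⟩ := gme1 hG hD
  have hev : ∀ᶠ x : ℂ in nhds 0, ∀ i j, AC ((cm K0 * H) i j) x := by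
    rw [Filter.eventually_all]
    intro i
    rw [Filter.eventually_all]
    intro j
    obtain ⟨ε, hε, h1⟩ := gtype_near (hD.gH i j)
    refine Metric.eventually_nhds_iff.2 ⟨ε, hε, fun y hy => (h1 y ?_).1⟩
    rwa [dist_zero_right] at hy
  obtain ⟨ε, hε, hball⟩ := Metric.eventually_nhds_iff.1 hev
  refine ⟨max R0 (ε⁻¹ + 1), fun w hw hR => ?_⟩
  have hR0 : R0 ≤ ‖w‖ := (le_max_left _ _).trans hR
  have hR1 : ε⁻¹ < ‖w‖ := lt_of_lt_of_le (by linarith) ((le_max_right _ _).trans hR)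
  have hn : 0 < ‖w‖ := lt_trans (inv_pos.2 hε) hR1
  have hac : ∀ i j, AC ((cm K0 * H) i j) w⁻¹ := by
    refine hball ?_
    rw [dist_zero_right, norm_inv, inv_lt_comm₀ hn hε]
    exact hR1
  have hLb := h0 w hw hR0
  have hH' : ∀ i j, H i j = ∑ k, PowerSeries.C (H0 i k) * (cm K0 * H) k j := by
    intro i j
    have h2 : H = cm H0 * (cm K0 * H) := by
      rw [← Matrix.mul_assoc, ← map_mul, e1, map_one, one_mul]
    have h3 := congrFun (congrFun h2 i) j
    rw [Matrix.mul_apply] at h3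
    rw [h3]
    rfl
  have hval : ∀ i j, evC (H i j) w⁻¹ = ∑ k, (H0 i k : ℂ) * evC ((cm K0 * H) k j) w⁻¹ := by
    intro i j
    rw [hH' i j, (ac_sum Finset.univ _ fun k _ => (evC_C_mul (H0 i k) (hac k j)).1).2]
    exact Finset.sum_congr rfl fun k _ => (evC_C_mul (H0 i k) (hac k j)).2
  intro N' Z' hN hZ
  let φ := trE (IntermediateField.adjoin ℚ {w}) e1 e2
  have hφ : ∀ (a : d × d → IntermediateField.adjoin ℚ {w}) (x : d × d), ((φ a x :
      IntermediateField.adjoin ℚ {w}) : ℂ) = ∑ i, (H0 i x.1 : ℂ) * (a (i, x.2) : ℂ) := by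
    intro a x
    have h1 : φ a x = ∑ i, algebraMap ℚ (IntermediateField.adjoin ℚ {w}) (H0 i x.1) *
      a (i, x.2) := rfl
    rw [h1]
    push_cast
    rfl
  have h1 := hLb (N'.map φ.toLinearMap) (Z'.map φ.toLinearMap) ?_ ?_
  · rw [LinearEquiv.finrank_map_eq, LinearEquiv.finrank_map_eq] at h1
    exact h1
  · rintro _ ⟨a, ha, rfl⟩
    have h2 := hN a ha
    rw [Fintype.sum_prod_type] at h2 ⊢
    simp only [hval] at h2
    have h3 : ∀ i j, (((φ.toLinearMap a) (i, j) : IntermediateField.adjoin ℚ {w}) : ℂ) =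
        ∑ k, (H0 k i : ℂ) * (a (k, j) : ℂ) := fun i j => hφ a (i, j)
    simp only [h3, Finset.sum_mul]
    simp only [Finset.mul_sum] at h2
    rw [← h2]
    rw [Finset.sum_comm]
    rw [Finset.sum_comm (s := Finset.univ (α := d)) (t := Finset.univ (α := d))
      (f := fun i j => ∑ k, (a (i, j) : ℂ) * ((H0 i k : ℂ) * evC ((cm K0 * H) k j) w⁻¹))]
    refine Finset.sum_congr rfl fun j _ => ?_
    rw [Finset.sum_comm]
    refine Finset.sum_congr rfl fun i _ => Finset.sum_congr rfl fun k _ => ?_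
    ring
  · intro p hp a ha
    have h5 : ∀ k j, (cm K0 * H) k j = ∑ i, PowerSeries.C (K0 k i) * H i j := by
      intro k j
      rw [Matrix.mul_apply]
      rfl
    refine ⟨tr (IntermediateField.adjoin ℚ {w}) K0 a, ?_, tr_tr _ e2 a⟩
    refine hZ (fun x => ∑ k, C (K0 k x.1) * p (k, x.2)) ?_ _ ?_
    · rw [← hp, Fintype.sum_prod_type, Fintype.sum_prod_type]
      simp only [h5, Finset.mul_sum]
      have h6 : ∀ i j, (((∑ k, C (K0 k i) * p (k, j) : ℚ[X])) : PowerSeries ℚ) =
          ∑ k, PowerSeries.C (K0 k i) * ((p (k, j) : ℚ[X]) : PowerSeries ℚ) := by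
        intro i j
        rw [← Polynomial.coeToPowerSeries.ringHom_apply, map_sum]
        refine Finset.sum_congr rfl fun k _ => ?_
        rw [map_mul, Polynomial.coeToPowerSeries.ringHom_apply,
          Polynomial.coeToPowerSeries.ringHom_apply, Polynomial.coe_C]
      simp only [h6, Finset.sum_mul]
      rw [Finset.sum_comm]
      rw [Finset.sum_comm (s := Finset.univ (α := d)) (t := Finset.univ (α := d))
        (f := fun k j => ∑ i, ((p (k, j) : ℚ[X]) : PowerSeries ℚ) *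
          (PowerSeries.C (K0 k i) * H i j))]
      refine Finset.sum_congr rfl fun j _ => ?_
      rw [Finset.sum_comm]
      refine Finset.sum_congr rfl fun k _ => Finset.sum_congr rfl fun i _ => ?_
      ring
    · intro x
      rw [tr_apply]
      push_cast
      rw [map_sum]
      refine Finset.sum_congr rfl fun k _ => ?_
      rw [map_mul, aeval_C, ← ha (k, x.2)]
      rfl

end Pool.Agent.MTN.H1
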