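import Pool.Agent.MTN.Stmts
import Pool.Agent.Helper64_MTD.Vag

/-!
# MTN, module VGC: the values of the translates at complex points
-/

set_option autoImplicit false

namespace Pool.Agent.MTN.H1

open Matrix Filter Topology Pool.Agent.MT100 Pool.Agent.MT100G Pool.Agent.MT100A
  Pool.Agent.MT100D Pool.Agent.MT100G.H43

variable {d : Type} [Fintype d] [DecidableEq d]

/-! ### The logarithm -/

/-- `log (w - κ) = log w + log (1 - κ / w)` -/
theorem log_sub {κ : ℝ} (hκ : 0 ≤ κ) {w : ℂ} (hw : κ < ‖w‖) :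
    Complex.log (w - κ) = Complex.log w + Complex.log (1 - κ * w⁻¹) := by
  have hn : 0 < ‖w‖ := lt_of_le_of_lt hκ hw
  have hw0 : w ≠ 0 := norm_pos_iff.1 hn
  obtain ⟨u, hu⟩ : ∃ u : ℂ, u = 1 - κ * w⁻¹ := ⟨_, rfl⟩
  have hnorm : ‖(κ : ℂ) * w⁻¹‖ < 1 := by
    rw [norm_mul, norm_inv, Complex.norm_real, Real.norm_eq_abs, abs_of_nonneg hκ,
      ← div_eq_mul_inv, div_lt_one hn]
    exact hw
  have hre : 0 < u.re := by
    have h1 : ((κ : ℂ) * w⁻¹).re ≤ ‖(κ : ℂ) * w⁻¹‖ := Complex.re_le_norm _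
    rw [hu, Complex.sub_re, Complex.one_re]
    linarith
  have hu0 : u ≠ 0 := by
    intro h
    rw [h] at hre
    simp at hre
  have hns : 0 < Complex.normSq w := Complex.normSq_pos.2 hw0
  have him : u.im = κ * w.im / Complex.normSq w := by
    rw [hu, Complex.sub_im, Complex.one_im, Complex.im_ofReal_mul, Complex.inv_im]
    ring
  have hmul : w * u = w - κ := by
    rw [hu, mul_sub, mul_one, mul_comm (κ : ℂ), ← mul_assoc, mul_inv_cancel₀ hw0, one_mul]
  have hun : 0 < ‖u‖ := norm_pos_iff.2 hu0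
  have hα := Complex.abs_arg_lt_pi_div_two_iff.2 (Or.inl hre)
  rw [abs_lt] at hα
  have hs : ‖w‖ * ‖u‖ * Real.sin (w.arg + u.arg) = w.im := by
    have h1 : (w * u).im = w.im := by
      rw [hmul, Complex.sub_im, Complex.ofReal_im, sub_zero]
    rw [← h1, Complex.mul_im, ← Complex.norm_mul_cos_arg w, ← Complex.norm_mul_sin_arg w,
      ← Complex.norm_mul_cos_arg u, ← Complex.norm_mul_sin_arg u, Real.sin_add]
    ring
  have hpos : 0 < ‖w‖ * ‖u‖ := mul_pos hn hun
  have hpi := Real.pi_pos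
  rw [← hmul, ← hu]
  rw [Complex.log_mul_eq_add_log_iff hw0 hu0]
  rcases le_or_gt 0 w.im with h | h
  · have hθ : 0 ≤ w.arg := Complex.arg_nonneg_iff.2 h
    have hα0 : 0 ≤ u.arg := by
      rw [Complex.arg_nonneg_iff, him]
      positivity
    refine ⟨by linarith, ?_⟩
    by_contra hc
    rw [not_le] at hc
    have hθ' : w.arg ≤ Real.pi := Complex.arg_le_pi w
    have h1 : 0 < Real.sin (w.arg + u.arg - Real.pi) :=
      Real.sin_pos_of_pos_of_lt_pi (by linarith) (by linarith)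
    rw [Real.sin_sub_pi] at h1
    have h2 : ‖w‖ * ‖u‖ * Real.sin (w.arg + u.arg) < 0 :=
      mul_neg_of_pos_of_neg hpos (by linarith)
    linarith
  · have hθ : w.arg < 0 := Complex.arg_neg_iff.2 h
    have hθ' : -Real.pi < w.arg := Complex.neg_pi_lt_arg w
    have hα0 : u.arg ≤ 0 := by
      by_contra hc
      rw [not_le] at hc
      have h1 : 0 < Real.sin u.arg := Real.sin_pos_of_pos_of_lt_pi hc (by linarith)
      have h2 : 0 < u.im := by
        rw [← Complex.norm_mul_sin_arg u]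
        exact mul_pos hun h1
      have h3 : u.im ≤ 0 := by
        rw [him]
        exact div_nonpos_of_nonpos_of_nonneg (mul_nonpos_of_nonneg_of_nonpos hκ h.le) hns.le
      linarith
    refine ⟨?_, by linarith⟩
    by_contra hc
    rw [not_lt] at hc
    have h1 : Real.sin (w.arg + u.arg + Real.pi) ≤ 0 :=
      Real.sin_nonpos_of_nonpos_of_neg_pi_le (by linarith) (by linarith)
    rw [Real.sin_add_pi] at h1
    have h2 : 0 ≤ ‖w‖ * ‖u‖ * Real.sin (w.arg + u.arg) :=
      mul_nonneg hpos.le (by linarith)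
    linarith

/-! ### Analytic matrices near zero -/

/-- the entries are analytic at zero -/
def MA (M : ℂ → Matrix d d ℂ) : Prop := ∀ i j, AnalyticAt ℂ (fun x => M x i j) 0

omit [DecidableEq d] in
theorem MA.mul {M N : ℂ → Matrix d d ℂ} (hM : MA M) (hN : MA N) : MA (fun x => M x * N x) := by
  intro i j
  have h1 : (fun x => (M x * N x) i j) = fun x => ∑ k, M x i k * N x k j := by
    funext x
    rw [Matrix.mul_apply]
  rw [h1]
  exact Finset.analyticAt_fun_sum Finset.univ fun k _ => (hM i k).mul (hN k j)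

theorem evC_an {f : PowerSeries ℚ} (hf : GType f) : AnalyticAt ℂ (evC f) 0 := by
  obtain ⟨δ, hδ, h⟩ := gtype_near hf
  refine DifferentiableOn.analyticAt (s := Metric.ball 0 δ) (fun x hx => ?_)
    (Metric.ball_mem_nhds _ hδ)
  rw [mem_ball_zero_iff] at hx
  exact (h x hx).2.2.differentiableAt.differentiableWithinAt

theorem eN_an (N : Matrix d d ℤ) {g : ℂ → ℂ} (hg : AnalyticAt ℂ g 0) :
    MA (fun x => eN N (g x)) := by
  intro i j
  have h1 : (fun x => eN N (g x) i j) = fun x => ∑ t ∈ Finset.range (Fintype.card d),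
      (((t.factorial : ℂ)⁻¹) * (((N ^ t) i j : ℤ) : ℂ)) * g x ^ t := by
    funext x
    rw [eN_entry]
    refine Finset.sum_congr rfl fun t _ => ?_
    rw [Rat.smul_def]
    push_cast
    ring
  rw [h1]
  exact Finset.analyticAt_fun_sum _ fun t _ => analyticAt_const.mul (hg.pow t)

omit [Fintype d] in
theorem ed_an (δ : d → ℚ) {g : ℂ → ℂ} (hg : AnalyticAt ℂ g 0) : MA (fun x => ed δ (g x)) := by
  intro i j
  unfold ed
  by_cases h : i = j
  · subst h
    have h1 : (fun x => (diagonal fun i => Complex.exp ((δ i : ℂ) * g x)) i i) =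
        fun x => Complex.exp ((δ i : ℂ) * g x) := by
      funext x
      rw [Matrix.diagonal_apply_eq]
    rw [h1]
    exact (analyticAt_const.mul hg).cexp
  · have h1 : (fun x => (diagonal fun i => Complex.exp ((δ i : ℂ) * g x)) i j) =
        fun _ => (0 : ℂ) := by
      funext x
      rw [Matrix.diagonal_apply_ne _ h]
    rw [h1]
    exact analyticAt_const

/-- the translate as a function of `x = 1/w` -/
noncomputable def GG (F : Family d) (κ : ℕ) (x : ℂ) : Matrix d d ℂ :=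
  F.H.map (fun f => evC f (x * (1 - κ * x)⁻¹)) * eN F.N (-Complex.log (1 - κ * x)) *
    ed F.δ (-Complex.log (1 - κ * x))

theorem GG_an (F : Family d) (κ : ℕ) : MA (GG F κ) := by
  have h0 : AnalyticAt ℂ (fun x : ℂ => 1 - (κ : ℂ) * x) 0 :=
    analyticAt_const.sub (analyticAt_const.mul analyticAt_id)
  have h1 : AnalyticAt ℂ (fun x : ℂ => x * (1 - (κ : ℂ) * x)⁻¹) 0 :=
    analyticAt_id.mul (h0.inv (by simp))
  have h2 : AnalyticAt ℂ (fun x : ℂ => -Complex.log (1 - (κ : ℂ) * x)) 0 :=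
    (h0.clog (by simp)).neg
  refine MA.mul (MA.mul ?_ (eN_an F.N h2)) (ed_an F.δ h2)
  intro i j
  have h3 : AnalyticAt ℂ (evC (F.H i j)) ((fun x : ℂ => x * (1 - (κ : ℂ) * x)⁻¹) 0) := by
    have h4 : (fun x : ℂ => x * (1 - (κ : ℂ) * x)⁻¹) 0 = 0 := by simp
    rw [h4]
    exact evC_an (F.sys.gH i j)
  exact AnalyticAt.comp (g := evC (F.H i j)) (f := fun x : ℂ => x * (1 - (κ : ℂ) * x)⁻¹)
    (x := (0 : ℂ)) h3 h1

theorem Y_eq (F : Family d) (κ : ℕ) {w : ℂ} (hw : (κ : ℝ) < ‖w‖) :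
    F.Y (w - κ) * F.R w = GG F κ w⁻¹ := by
  have hn : 0 < ‖w‖ := lt_of_le_of_lt (Nat.cast_nonneg κ) hw
  have hw0 : w ≠ 0 := norm_pos_iff.1 hn
  have hL := log_sub (Nat.cast_nonneg κ) hw
  rw [Complex.ofReal_natCast] at hL
  have hinv : (w - κ)⁻¹ = w⁻¹ * (1 - κ * w⁻¹)⁻¹ := by
    rw [← mul_inv, mul_sub, mul_one, mul_comm (κ : ℂ), ← mul_assoc, mul_inv_cancel₀ hw0, one_mul]
  unfold Family.Y Family.R YD YH GG
  rw [hinv]
  obtain ⟨V, hV⟩ : ∃ V : Matrix d d ℂ, V = F.H.map (fun f => evC f (w⁻¹ * (1 - κ * w⁻¹)⁻¹)) :=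
    ⟨_, rfl⟩
  rw [← hV]
  have hLn : -Complex.log (1 - κ * w⁻¹) = -Complex.log (w - κ) + Complex.log w := by
    rw [hL]
    ring
  rw [hLn]
  calc V * eN F.N (-Complex.log (w - κ)) * ed F.δ (-Complex.log (w - κ)) *
        (ed F.δ (Complex.log w) * eN F.N (Complex.log w)) =
        V * eN F.N (-Complex.log (w - κ)) * ((ed F.δ (-Complex.log (w - κ)) *
          ed F.δ (Complex.log w)) * eN F.N (Complex.log w)) := by
        simp only [Matrix.mul_assoc]
    _ = V * (eN F.N (-Complex.log (w - κ)) * eN F.N (Complex.log w)) *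
        ed F.δ (-Complex.log (w - κ) + Complex.log w) := by
        rw [MT100D.H64.ed_addV, MT100D.H64.ed_eN F.sys.com]
        simp only [Matrix.mul_assoc]
    _ = _ := by rw [MT100.H27.eN_mul F.sys.nil]

/-- VGC -/
theorem vgc : VgcStmt := by
  intro d _ _ F κ
  have hG : ∀ i j, GType (F.T κ i j) := by
    obtain ⟨K', N', δ', q', B', h⟩ := MT100D.H20.trgD d F.H F.K F.N F.δ F.q F.B F.sys κ
    exact h.gH
  have hreal : ∀ᶠ w : ℝ in atTop, ∀ i j, evC (F.T κ i j) ((w : ℂ)⁻¹) = GG F κ ((w : ℂ)⁻¹) i j := by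
    filter_upwards [MT100D.H64.vagD d F κ, eventually_gt_atTop (κ : ℝ)] with w h1 h2
    intro i j
    have h3 : (κ : ℝ) < ‖(w : ℂ)‖ := by
      rw [Complex.norm_real, Real.norm_eq_abs]
      exact lt_of_lt_of_le h2 (le_abs_self w)
    rw [Y_eq F κ h3] at h1
    rw [h1]
    unfold Family.tv
    rw [Matrix.map_apply, ← Complex.ofReal_inv, evC_real]
  have htend : Tendsto (fun w : ℝ => (w : ℂ)⁻¹) atTop (𝓝[≠] 0) := by
    refine tendsto_nhdsWithin_iff.2 ⟨?_, ?_⟩
    · have h1 : Tendsto (fun w : ℝ => ((w⁻¹ : ℝ) : ℂ)) atTop (𝓝 ((0 : ℝ) : ℂ)) :=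
        (Complex.continuous_ofReal.tendsto 0).comp tendsto_inv_atTop_zero
      rw [Complex.ofReal_zero] at h1
      refine h1.congr fun w => ?_
      rw [Complex.ofReal_inv]
    · filter_upwards [eventually_gt_atTop (0 : ℝ)] with w hw
      exact inv_ne_zero (by exact_mod_cast hw.ne')
  have hev : ∀ᶠ x : ℂ in 𝓝 0, ∀ i j, evC (F.T κ i j) x = GG F κ x i j := by
    rw [eventually_all]
    intro i
    rw [eventually_all]
    intro j
    rw [← AnalyticAt.frequently_eq_iff_eventually_eq (evC_an (hG i j)) (GG_an F κ i j)]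
    refine htend.frequently (Eventually.frequently ?_)
    filter_upwards [hreal] with w hw
    exact hw i j
  obtain ⟨ε, hε, hball⟩ := Metric.eventually_nhds_iff.1 hev
  refine ⟨max (κ : ℝ) ε⁻¹, fun w hw => ?_⟩
  have h1 : (κ : ℝ) < ‖w‖ := lt_of_le_of_lt (le_max_left _ _) hw
  have h2 : ε⁻¹ < ‖w‖ := lt_of_le_of_lt (le_max_right _ _) hw
  have hn : 0 < ‖w‖ := lt_of_le_of_lt (Nat.cast_nonneg κ) h1
  rw [Y_eq F κ h1]
  unfold tvC
  ext i j
  rw [Matrix.map_apply]
  refine (hball ?_ i j).symm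
  rw [dist_zero_right, norm_inv, inv_lt_comm₀ hn hε]
  exact h2

end Pool.Agent.MTN.H1
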